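import Pool.Agent.KS6_80.SN.Loc
import Pool.Graph.R_pool_sql_team_seeded_5cf16337.K3h38.SM.Mult

set_option autoImplicit false

/-! # Products of powers of forms with normal crossings in the projective space -/

namespace Pool.Agent.KS6_80.SN

open MeasureTheory MvPolynomial Topology Module
open Pool.Agent.W427.SMC Pool.Agent.Y230.PT Pool.Agent.Y230.PS
open Pool.Agent.Q57.QP Pool.Agent.Q38.QP Pool.Agent.KS6_80.HH Pool.Agent.H628R4.TP
open scoped ENNReal

variable {N : ℕ} {κ : Type}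

/-- The hypersurfaces `F_i = 0` of the projective space are smooth and cross each other
transversally: for every `z ≠ 0`, the gradients at `z` of the `F_i` with `F_i(z) = 0` are linearly
independent. -/
def Snc (F : κ → MvPolynomial (Fin N) ℂ) : Prop :=
  ∀ z : Fin N → ℂ, z ≠ 0 →
    LinearIndependent ℂ fun (i : {i // eval z (F i) = 0}) (j : Fin N) => eval z (pderiv j (F i))

theorem exists_zero (hN : 2 ≤ N) (Q : MvPolynomial (Fin N) ℂ) (hQ : Prime Q) :
    ∃ z : Fin N → ℂ, z ≠ 0 ∧ eval z Q = 0 := by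
  classical
  by_contra hno
  push Not at hno
  have hdvd : ∀ i : Fin N, Q ∣ X i := by
    intro i
    have h1 := vanishingIdeal_zeroLocus_eq_radical (K := ℂ) (Ideal.span {Q})
    rw [((Ideal.span_singleton_prime hQ.ne_zero).2 hQ).radical] at h1
    rw [← Ideal.mem_span_singleton, ← h1]
    intro z hz
    have h2 : eval z Q = 0 := by
      have := hz Q (Ideal.mem_span_singleton_self Q)
      rwa [aeval_eq_eval] at this
    have h3 : z = 0 := by
      by_contra h
      exact hno z h h2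
    rw [h3]
    simp
  have ha : ∀ i : Fin N, Associated Q (X i) := fun i =>
    (hQ.irreducible.dvd_irreducible_iff_associated (X_prime (i := i)).irreducible).1 (hdvd i)
  have h1 : (X ⟨0, by omega⟩ : MvPolynomial (Fin N) ℂ) ∣ X ⟨1, by omega⟩ :=
    ((ha _).symm.trans (ha _)).dvd
  rw [X_dvd_X] at h1
  exact absurd h1 (by simp)

theorem grad_mul (z : Fin N → ℂ) (Q H : MvPolynomial (Fin N) ℂ) (h : eval z Q = 0) (j : Fin N) :
    eval z (pderiv j (Q * H)) = eval z H * eval z (pderiv j Q) := by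
  rw [Derivation.leibniz, map_add, smul_eq_mul, smul_eq_mul, map_mul, map_mul, h, zero_mul, zero_add]

theorem snc_coprime (hN : 2 ≤ N) (F : κ → MvPolynomial (Fin N) ℂ) (hF : Snc F) (i j : κ)
    (hij : i ≠ j) (Q : MvPolynomial (Fin N) ℂ) (hQ : Prime Q) (hi : Q ∣ F i) : ¬ Q ∣ F j := by
  classical
  intro hj
  obtain ⟨z, hz, hzQ⟩ := exists_zero hN Q hQ
  obtain ⟨H, hH⟩ := hi
  obtain ⟨H', hH'⟩ := hj
  have hi0 : eval z (F i) = 0 := by rw [hH, map_mul, hzQ, zero_mul]
  have hj0 : eval z (F j) = 0 := by rw [hH', map_mul, hzQ, zero_mul]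
  have hl := hF z hz
  set a : {i // eval z (F i) = 0} := ⟨i, hi0⟩ with ha
  set b : {i // eval z (F i) = 0} := ⟨j, hj0⟩ with hb
  have hab : a ≠ b := fun h => hij (congrArg Subtype.val h)
  have hva : ∀ l, eval z (pderiv l (F i)) = eval z H * eval z (pderiv l Q) := by
    intro l
    rw [hH, grad_mul z Q H hzQ]
  have hvb : ∀ l, eval z (pderiv l (F j)) = eval z H' * eval z (pderiv l Q) := by
    intro l
    rw [hH', grad_mul z Q H' hzQ]
  have h1 := linearIndependent_iff'.1 hl {a, b}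
    (fun x => if x = a then eval z H' else - eval z H) (by
      rw [Finset.sum_pair hab]
      funext l
      simp only [Pi.add_apply, Pi.smul_apply, smul_eq_mul, if_true, Pi.zero_apply]
      rw [if_neg hab.symm, hva, hvb]
      ring) a (by simp)
  simp only [if_true] at h1
  apply hl.ne_zero b
  funext l
  change eval z (pderiv l (F j)) = 0
  rw [hvb, h1, zero_mul]

/-- the roots `-1/k_i` -/
theorem root_k [Fintype κ] [DecidableEq κ] (hN : 2 ≤ N) (F : κ → MvPolynomial (Fin N) ℂ)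
    (hF : Snc F) (e k : κ → ℕ) (he : ∀ i, 0 < e i) (hh : ∀ i, (F i).IsHomogeneous (e i))
    (hF0 : ∀ i, F i ≠ 0) (B : Polynomial ℂ)
    (hB : IsBFunction (∏ i, F i ^ k i) B) (i : κ) (hk : k i ≠ 0) :
    B.eval (-(1 : ℕ) / (k i : ℂ)) = 0 := by
  classical
  have hnu : ¬ IsUnit (F i) := by
    intro hu
    have h1 : (F i).totalDegree = e i := (hh i).totalDegree (hF0 i)
    rw [MvPolynomial.isUnit_iff_totalDegree_of_isReduced] at hu
    have := he i
    omega
  obtain ⟨Q, hQ, hQG⟩ := WfDvdMonoid.exists_irreducible_factor hnu (hF0 i)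
  have hQp : Prime Q := hQ.prime
  obtain ⟨μ, H, hH, hGH⟩ := WfDvdMonoid.max_power_factor (hF0 i) hQ
  have hμ : 1 ≤ μ := by
    by_contra h
    have h0 : μ = 0 := by omega
    rw [h0, pow_zero, one_mul] at hGH
    exact hH (hGH ▸ hQG)
  have hbC : (k i : ℂ) ≠ 0 := by exact_mod_cast hk
  have hμC : (μ : ℂ) ≠ 0 := by
    have : μ ≠ 0 := by omega
    exact_mod_cast this
  have hprod : ∏ x, F x ^ k x = Q ^ (μ * k i) * (H ^ k i * ∏ x ∈ Finset.univ.erase i, F x ^ k x) := by
    rw [← Finset.mul_prod_erase Finset.univ (fun x => F x ^ k x) (Finset.mem_univ i), ← mul_assoc]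
    congr 1
    nth_rewrite 1 [hGH]
    rw [mul_pow, ← pow_mul]
  have h := Pool.Agent.K3h38.SM.root_of_mult (∏ x, F x ^ k x) Q
    (H ^ k i * ∏ x ∈ Finset.univ.erase i, F x ^ k x) (μ * k i) μ hμ
    (Nat.le_mul_of_pos_right _ (Nat.pos_of_ne_zero hk)) hprod hQp
    (by
      intro h1
      rcases hQp.dvd_or_dvd h1 with h2 | h2
      · exact hH (hQp.dvd_of_dvd_pow h2)
      · obtain ⟨x, hx, h3⟩ := hQp.exists_mem_finset_dvd h2
        exact snc_coprime hN F hF i x (Finset.ne_of_mem_erase hx).symm Q hQp hQG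
          (hQp.dvd_of_dvd_pow h3)) B hB
  rw [← h]
  congr 1
  push_cast
  field_simp

variable {p : ℕ} [Fact p.Prime]

/-- **The zeta functions of `∏ F_i ^ k_i` for normal crossings in the projective space**, if the root
`-N/d` is known. -/
theorem snc_FR [Fintype κ] [DecidableEq κ] (hN : 2 ≤ N) (F : κ → MvPolynomial (Fin N) ℚ)
    (e k : κ → ℕ) (he : ∀ i, 0 < e i) (hh : ∀ i, (F i).IsHomogeneous (e i))
    (hF0 : ∀ i, F i ≠ 0) (hF : Snc fun i => map (algebraMap ℚ ℂ) (F i))
    (hd : 0 < ∑ i, k i * e i)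
    (hroot : ∀ B : Polynomial ℂ, IsBFunction (∏ i, map (algebraMap ℚ ℂ) (F i) ^ k i) B →
      B.eval (-(N : ℂ) / ((∑ i, k i * e i : ℕ) : ℂ)) = 0) :
    FR p (mR p (hyp (∏ i, F i ^ k i))) (FF ((hyp (∏ i, F i ^ k i)).toP p)) := by
  classical
  have hFC0 : ∀ i, map (algebraMap ℚ ℂ) (F i) ≠ 0 := fun i h => hF0 i
    (map_injective _ (algebraMap ℚ ℂ).injective (by rw [h, map_zero]))
  have hmap : map (algebraMap ℚ ℂ) (∏ i, F i ^ k i) = ∏ i, map (algebraMap ℚ ℂ) (F i) ^ k i := by
    rw [map_prod]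
    exact Finset.prod_congr rfl fun i _ => map_pow _ _ _
  have hmapp : map (algebraMap ℚ ℚ_[p]) (∏ i, F i ^ k i) =
      ∏ i, map (algebraMap ℚ ℚ_[p]) (F i) ^ k i := by
    rw [map_prod]
    exact Finset.prod_congr rfl fun i _ => map_pow _ _ _
  have hI := idem_mR (p := p) (hyp (∏ i, F i ^ k i))
  have hk : ∀ i, k i ≠ 0 → ∀ T : ℂ, 1 < ‖T‖ → T ^ k i = (p : ℂ) →
      mR p (hyp (∏ i, F i ^ k i)) T = ⊤ := by
    intro i hi T _ hT
    refine mR_of _ 1 (k i) one_pos (Nat.pos_of_ne_zero hi) (fun B hB => ?_) T (by rw [hT, pow_one])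
    rw [hmap] at hB
    exact root_k hN _ hF e k he (fun i => (hh i).map _) hFC0 B hB i hi
  obtain ⟨φ⟩ := exists_emb p
  have hφ : φ.comp (algebraMap ℚ ℚ_[p]) = algebraMap ℚ ℂ := RingHom.ext_rat _ _
  have hev : ∀ (P : Fin N → ℚ_[p]) (q : MvPolynomial (Fin N) ℚ),
      eval (fun i => φ (P i)) (map (algebraMap ℚ ℂ) q) = φ (eval P (map (algebraMap ℚ ℚ_[p]) q)) := by
    intro P q
    rw [eval_map, eval_map, ← coe_eval₂Hom, ← coe_eval₂Hom, ← RingHom.comp_apply]
    congr 1
    apply MvPolynomial.ringHom_ext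
    · intro r
      rw [eval₂Hom_C, RingHom.comp_apply, eval₂Hom_C, ← hφ, RingHom.comp_apply]
    · intro i
      rw [eval₂Hom_X', RingHom.comp_apply, eval₂Hom_X']
  have hloc : ∀ P : Fin N → ℚ_[p], P ≠ 0 → LP (mR p (hyp (∏ i, F i ^ k i)))
      (nf (map (algebraMap ℚ ℚ_[p]) (∏ i, F i ^ k i))) P := by
    intro P hP
    rw [hmapp]
    have hz : (fun i => φ (P i)) ≠ 0 := by
      intro h
      apply hP
      funext i
      exact (map_eq_zero φ).1 (congrFun h i)
    have hl := hF _ hz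
    set ι : Finset κ := Finset.univ.filter fun i => eval P (map (algebraMap ℚ ℚ_[p]) (F i)) = 0
      with hι
    have hιm : ∀ i, i ∈ ι ↔ eval P (map (algebraMap ℚ ℚ_[p]) (F i)) = 0 := fun i => by simp [hι]
    have hιz : ∀ i : ι, eval (fun i => φ (P i)) (map (algebraMap ℚ ℂ) (F i)) = 0 := by
      intro i
      rw [hev, (hιm i).1 i.2, map_zero]
    have hl2 : LinearIndependent ℂ fun (i : ι) (j : Fin N) =>
        eval (fun i => φ (P i)) (pderiv j (map (algebraMap ℚ ℂ) (F i))) := by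
      refine hl.comp (fun i : ι => (⟨i, hιz i⟩ :
        {i // eval (fun i => φ (P i)) (map (algebraMap ℚ ℂ) (F i)) = 0})) ?_
      intro x y hxy
      exact Subtype.ext (Subtype.mk.inj hxy)
    obtain ⟨s, hs⟩ := exists_minor _ hl2
    refine lp_snc hI P (fun i => map (algebraMap ℚ ℚ_[p]) (F i)) k ι (fun i hi => (hιm i).2 hi) s
      ?_ fun i _ => hk i
    intro h0
    apply hs
    have h1 : (Matrix.of fun a b : ι => eval (fun i => φ (P i))
        (pderiv (s a) (map (algebraMap ℚ ℂ) (F b)))) =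
        φ.mapMatrix (Matrix.of fun a b : ι => eval P
          (pderiv (s a) (map (algebraMap ℚ ℚ_[p]) (F b)))) := by
      ext a b
      simp only [RingHom.mapMatrix_apply, Matrix.map_apply, Matrix.of_apply]
      rw [pderiv_map, hev, pderiv_map]
    rw [h1, ← RingHom.map_det, h0, map_zero]
  refine fr_of_lp _ fun P => ?_
  by_cases hP : P = 0
  · rw [hP]
    refine lp_cone0 (by omega) _ hd _ ?_ (fun T _ hT => ?_) hloc
    · refine IsHomogeneous.map ?_ _
      refine IsHomogeneous.prod _ _ _ fun i _ => ?_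
      rw [mul_comm]
      exact (hh i).pow (k i)
    · refine mR_of _ N _ (by omega) hd (fun B hB => ?_) T hT
      rw [hmap] at hB
      exact hroot B hB
  · exact hloc P hP

end Pool.Agent.KS6_80.SN
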