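import Pool.Agent.KS6_80.HH.Glob

set_option autoImplicit false

/-! # Local integrals at crossings of smooth hypersurfaces -/

namespace Pool.Agent.KS6_80.SN

open MeasureTheory MvPolynomial Topology Module
open Pool.Agent.W427.SMC Pool.Agent.Y230.PT Pool.Agent.Y230.PS
open Pool.Agent.Q57.QP Pool.Agent.Q38.QP Pool.Agent.KS6_80.HH
open scoped ENNReal

/-- a maximal minor of independent vectors -/
theorem exists_minor {K : Type} [Field K] {ι : Type} [Fintype ι] [DecidableEq ι] {N : ℕ}
    (v : ι → Fin N → K) (h : LinearIndependent K v) :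
    ∃ s : ι → Fin N, (Matrix.of fun a b => v b (s a)).det ≠ 0 := by
  classical
  set w : Fin N → ι → K := fun j i => v i j with hw
  have hspan : Submodule.span K (Set.range w) = ⊤ := by
    have h1 : (Matrix.of v).rank = Fintype.card ι := LinearIndependent.rank_matrix (M := Matrix.of v) h
    rw [Matrix.rank_eq_finrank_span_cols] at h1
    refine Submodule.eq_top_of_finrank_eq ?_
    rw [finrank_fintype_fun_eq_card]
    exact h1
  obtain ⟨b, hb1, hb2, hb3⟩ := exists_linearIndependent K (Set.range w)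
  rw [hspan] at hb2
  have hB : Basis b K (ι → K) := Basis.mk hb3 (by rw [Subtype.range_coe, hb2])
  have : Fintype b := FiniteDimensional.fintypeBasisIndex hB
  have hc : Fintype.card ι = Fintype.card b := by
    rw [← finrank_fintype_fun_eq_card (R := K) (η := ι), finrank_eq_card_basis hB]
  obtain ⟨e⟩ := Fintype.card_eq.1 hc
  choose s hs using fun a : ι => hb1 (e a).2
  refine ⟨s, ?_⟩
  have h2 : LinearIndependent K (Matrix.of fun a b => v b (s a)).row := by
    have h3 : (Matrix.of fun a b => v b (s a)).row = fun a => ((e a : b) : ι → K) := by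
      funext a
      exact hs a
    rw [h3]
    exact hb3.comp e e.injective
  have h3 := Matrix.linearIndependent_rows_iff_isUnit.1 h2
  exact ((Matrix.isUnit_iff_isUnit_det _).1 h3).ne_zero

variable {p : ℕ} [Fact p.Prime]

/-- **Smooth hypersurfaces which cross transversally at `P`.** -/
theorem lp_snc {m : ℂ → ℕ∞} (hI : Idem m) {N : ℕ} {κ : Type} [Fintype κ] [DecidableEq κ] (P : Fin N → ℚ_[p])
    (F : κ → MvPolynomial (Fin N) ℚ_[p]) (k : κ → ℕ) (ι : Finset κ)
    (hι : ∀ i, eval P (F i) = 0 → i ∈ ι) (s : ι → Fin N)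
    (hdet : (Matrix.of fun a b : ι => eval P (pderiv (s a) (F b))).det ≠ 0)
    (hk : ∀ i ∈ ι, k i ≠ 0 → ∀ T, 1 < ‖T‖ → T ^ k i = (p : ℂ) → m T = ⊤) :
    LP m (nf (∏ i, F i ^ k i)) P := by
  classical
  set q := ι.equivFin with hq
  have hprod : ∀ H : κ → MvPolynomial (Fin N) ℚ_[p], ∏ i ∈ ι, H i = ∏ t, H (q.symm t) := by
    intro H
    rw [← Finset.prod_coe_sort ι H]
    exact (Fintype.prod_equiv q.symm (fun t => H (q.symm t)) (fun i : ι => H i)
      (fun t => rfl)).symm
  refine lp_nc hI P ι.card (fun t => F (q.symm t)) (fun t => s (q.symm t))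
    (fun t => k (q.symm t)) (∏ i ∈ ιᶜ, F i ^ k i) _ ?_ ?_ ?_ fun t => hk _ (q.symm t).2
  · rw [map_prod]
    refine Finset.prod_ne_zero_iff.2 fun i hi => ?_
    rw [map_pow]
    refine pow_ne_zero _ fun h => ?_
    rw [Finset.mem_compl] at hi
    exact hi (hι i h)
  · rw [← hprod (fun i => F i ^ k i), Finset.prod_compl_mul_prod]
  · have h1 : (Matrix.of fun r t => eval P (pderiv (s (q.symm r)) (F (q.symm t)))) =
        (Matrix.of fun a b : ι => eval P (pderiv (s a) (F b))).submatrix q.symm q.symm := by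
      ext r t
      rfl
    rw [h1, Matrix.det_submatrix_equiv_self]
    exact hdet

end Pool.Agent.KS6_80.SN
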